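import Pool.Agent.H51.MUS.Defs
import Pool.Agent.H51.MUS.Proof

/-!
Vanishing of the mu-invariant for all data is equivalent to slow growth of the mu-rank in
abelian extensions.

`G` is a compact topological group (the absolute Galois group of the rationals), `T` is a pair
of cohomology functors `H1`, `H2` on the finite representations of `G` over the field `F`, with
values in vector spaces over a field `k` of characteristic `p` (Iwasawa cohomology tensored with
the fraction field of the Iwasawa algebra over `F`). Fix an open normal subgroup `U₀` of index
prime to `p` (for instance the one of the field of `p`-th roots of unity). Then `H2` vanishes on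
all finite representations if and only if for every open subgroup `U ≤ U₀` of index prime to
`p`, and every `c`, there are `s` and an open subgroup `V` of `U`, normal in `U` with `U/V`
abelian of exponent dividing `p ^ s`, such that `p ^ (s c) * dim H2(F[G/V]) < [U : V]`.
-/

set_option autoImplicit false

namespace Pool.Agent.Results.MP_519cc8_nt.AllDataIff

open CategoryTheory Pool.Agent.H51.MUS

theorem result {F k G : Type} [Field F] [Field k] [Group G] [TopologicalSpace G]
    [IsTopologicalGroup G] [CompactSpace G] (T : Theory F k G)
    {p : ℕ} [Fact p.Prime] [CharP k p]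
    (U₀ : Subgroup G) (hU₀ : IsOpen (U₀ : Set G)) (hn : U₀.Normal) (hp₀ : ¬ p ∣ U₀.index) :
    (∀ A : Rep.{0} F G, IsFin A → Subsingleton (T.H2.obj A)) ↔
      ∀ U : Subgroup G, IsOpen (U : Set G) → U ≤ U₀ → ¬ p ∣ U.index →
        ∀ c : ℕ, ∃ (s : ℕ) (V : Subgroup G), IsOpen (V : Set G) ∧ AbExp (p ^ s) V U ∧
          (p ^ s) ^ c * Module.finrank k (T.H2.obj (ind V (one F G))) < V.relIndex U :=
  all_main T U₀ hU₀ hn hp₀

end Pool.Agent.Results.MP_519cc8_nt.AllDataIff
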