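import Pool.Agent.H23.MC.Bridge

/-! **`MP_519cc8_nt`: one number field above each field of degree prime to `p`, with few ideal
classes compared with its cyclotomic level, is equivalent to Q1 for all data.** -/

set_option autoImplicit false

namespace Pool.Agent.Results.MP_519cc8_nt.ClassGroupCriterion

open Pool.H23.MC

/-- Q1 holds for all data if and only if for every number field `K` in `C` there are `n` and a
number field `N` containing the compositum `KB` of `K` and the `n`-th layer `B` of the cyclotomic
`ℤ_p`-extension of `ℚ` with `(rk_p Cl(O_N[1/p]) + #{v | p}) [K : ℚ] ≤ [K B : ℚ]`. Here `C` is the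
class of the number fields of degree prime to `p` (and then the condition is
`rk_p Cl(O_N[1/p]) + #{v | p} ≤ p ^ n`), or any class of number fields such that every number field
is contained in a member of `C`. -/
theorem result (p : ℕ) [Fact p.Prime] (hp : p ≠ 2) (F : Type) [Field F] [CharP F p]
    (T : Theory p F) (C : Set NF)
    (hC : (∀ K : NF, K ∈ C ↔ ¬ p ∣ K.deg) ∨ ∀ E : NF, ∃ K ∈ C, E.Le K) :
    (∀ D, T.tors D ∧ T.mu D = 0) ↔
      ∀ K ∈ C, ∃ (n : ℕ) (B KB N : NF), IsLayer p n B ∧ K.IsSup B KB ∧ KB.Le N ∧
        N.size p * K.deg ≤ KB.deg :=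
  criterion T hp C hC

end Pool.Agent.Results.MP_519cc8_nt.ClassGroupCriterion
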