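import Pool.Agent.H51.MUS.Defs
import Pool.Agent.H51.MUS.Proof

/-!
Linear growth of the mu-rank in abelian extensions of bounded exponent.

`G` is a compact topological group (an absolute Galois group), `T` is a pair of cohomology
functors `H1`, `H2` on the finite representations of `G` over the field `F`, with values in
vector spaces over a field `k` of characteristic `p` (Iwasawa cohomology tensored with the
fraction field of the Iwasawa algebra over `F`). For an open subgroup `V` put
`r(V) = dim H2(F[G/V] ⊗ W)`. If `V` is normal in `U`, the quotient `U/V` is abelian of exponent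
dividing `q = p ^ s`, then `r(U) > 0` implies `[U : V] ≤ q ^ h * r(V)` with
`h = dim H1(F[G/U] ⊗ W)`; and `r(V) ≤ [U : V] * r(U)` in all cases.
-/

set_option autoImplicit false

namespace Pool.Agent.Results.MP_519cc8_nt.LinearGrowth

open CategoryTheory Pool.Agent.H51.MUS

theorem result {F k G : Type} [Field F] [Field k] [Group G] [TopologicalSpace G]
    [IsTopologicalGroup G] [CompactSpace G] (T : Theory F k G)
    {p s : ℕ} [Fact p.Prime] [CharP k p] (W : Rep.{0} F G) (hW : IsFin W)
    (U V : Subgroup G) (hU : IsOpen (U : Set G)) (hV : IsOpen (V : Set G))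
    (hUV : AbExp (p ^ s) V U) :
    (0 < Module.finrank k (T.H2.obj (ind U W)) →
      V.relIndex U ≤ (p ^ s) ^ (Module.finrank k (T.H1 (ind U W))) *
        Module.finrank k (T.H2.obj (ind V W))) ∧
      Module.finrank k (T.H2.obj (ind V W)) ≤
        V.relIndex U * Module.finrank k (T.H2.obj (ind U W)) :=
  linear_main T W hW U V hU hV hUV

end Pool.Agent.Results.MP_519cc8_nt.LinearGrowth
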