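import Pool.Agent.H23.MS.Bridge

/-!
# Mu-invariants of symmetric powers: they all vanish or they grow at the maximal rate

Let `K` be a number field, `T` a free `R`-module of rank `d` with an action of `GK` as in the
problem, `F` the residue field of `R`, `ρ : GK → GL_d(F)` the residual representation and
`G = ρ(GK) = Gal(K(T/π)|K)`.  For a finite Galois module `V` over `F` let `h V` be the rank over
`F[[Γ]]` of `H^2_Iw(O_{K,S}, V)` (the mu-number).  It is known that Q1 for `(K, L, T')` means
`h (F[Gal(L|K)] ⊗ T'/π) = 0`.  Hence the first condition of (1) below says that Q1 holds for all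
`(K, L, T')` with `L(T'/π)` contained in `K(T/π)`.

Part (1) shows that this follows if Q1 holds for the finitely many symmetric powers `Sym^n T`,
`n < |G|`, and that it even follows if the mu-numbers of the symmetric powers of `T` are small on
the average: `h(Sym^0 T/π) + ... + h(Sym^N T/π) = o(N^d)` along a sequence of `N` (the total rank
of these modules is of the order `N^d`).  So either Q1 holds for all `(K, L, T')` with `L(T'/π)`
contained in `K(T/π)`, or the mu-numbers of the symmetric powers of `T` grow at the maximal rate
`N^d`.  The same is true for the tensor powers (with `d^N`).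

Part (3) is the version for class groups, without any hypotheses: for `M_n` the layers of the
cyclotomic `ℤ_p`-extension of `M = K(T/π)` and `a_n = p^n`, the first condition is Iwasawa's
conjecture `μ = 0` for `M`.
-/

namespace Pool.Agent.Results.MP_519cc8_nt.SymmetricPowers

open Pool.H23.MS

/-- **Theorem.**  Let `F` be a finite field.

(1) Let `h` be a function on the finite Galois modules over `F` which is monotone under quotients
and additive on finite direct sums (such as the mu-number).  For every representation
`ρ : GK → GL_d(F)` with open kernel and image `G` the following are equivalent: `h V = 0` for all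
finite modules `V` of `G`; `h (Sym^n) = 0` for all `n < |G|`; for all `ε > 0` there are arbitrarily
large `N` with `h (Sym^0) + ... + h (Sym^N) ≤ ε N^d`; and the same two conditions for the tensor
powers, with `ε d^N`.

(2) `h V = 0` for all finite Galois modules `V` over `F` if and only if the third condition holds
for all `d` and `ρ`.

(3) Let the finite group `G` act on the number fields `M_0, M_1, ...` (so `M_n` is Galois over the
fixed field), let `ρ : G → GL_d(F)` be injective, `d ≥ 1`, and `a_n > 0`.  For a module `V` of `G`
let `P_n(V)` be the dimension of the space of `G`-invariant pairings `Cl(M_n) × V → F`.  The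
following are equivalent: the `p`-rank of `Cl(M_n)` is `o(a_n)`; `P_n(Sym^j) = o(a_n)` for all
`j < |G|`; for all `ε > 0` there are arbitrarily large `N` with
`P_n(Sym^0) + ... + P_n(Sym^N) ≤ ε N^d a_n` for all large `n`; and the same two conditions for
the tensor powers, with `ε d^N a_n`. -/
theorem result (F : Type) [Field F] [Finite F] :
    (∀ (GK : Type) [Group GK] [TopologicalSpace GK] [IsTopologicalGroup GK]
      (h : GMod F GK → ℕ), IsMu h →
      (∀ (d : ℕ) (ρ : GK →* GL (Fin d) F) (S T : ℕ → GMod F GK),
        (∀ n, IsSym ρ n (S n)) → (∀ n, IsTen ρ n (T n)) → OpenKernel ρ →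
        List.TFAE [
          ∀ A : GMod F GK, A.IsFinite → IsOver ρ A → h A = 0,
          ∀ n < order ρ, h (S n) = 0,
          OftenSmall (fun n => h (S n)) (fun N => (N : ℝ) ^ d),
          ∀ n < order ρ, h (T n) = 0,
          OftenSmall (fun n => h (T n)) (fun N => (d : ℝ) ^ N)]) ∧
      ((∀ A : GMod F GK, A.IsFinite → h A = 0) ↔
        ∀ (d : ℕ) (ρ : GK →* GL (Fin d) F) (S : ℕ → GMod F GK),
          (∀ n, IsSym ρ n (S n)) → OpenKernel ρ →
          OftenSmall (fun n => h (S n)) (fun N => (N : ℝ) ^ d))) ∧
    (∀ (G : Type) [Group G] [Finite G] (M : ℕ → Type) [∀ n, Field (M n)]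
      [∀ n, NumberField (M n)] (φ : ∀ n, G → (M n ≃+* M n)) (a : ℕ → ℝ) (d : ℕ)
      (ρ : G →* GL (Fin d) F) (S T : ℕ → GMod F G),
      (∀ n, IsAction (φ n)) → (∀ n, IsSym ρ n (S n)) → (∀ n, IsTen ρ n (T n)) →
      (∀ n, 0 < a n) → 0 < d → Function.Injective ρ →
      List.TFAE [
        IsSmall (fun n => classRank F (M n)) a,
        ∀ j < Nat.card G, IsSmall (fun n => pairNum (φ n) (S j)) a,
        OftenSmallIn (fun n j => pairNum (φ n) (S j)) (fun N => (N : ℝ) ^ d) a,
        ∀ j < Nat.card G, IsSmall (fun n => pairNum (φ n) (T j)) a,
        OftenSmallIn (fun n j => pairNum (φ n) (T j)) (fun N => (d : ℝ) ^ N) a]) :=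
  main F

end Pool.Agent.Results.MP_519cc8_nt.SymmetricPowers
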